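import Pool.Agent.SuperLCS.Main

set_option autoImplicit false

namespace Pool.Agent.Results.MP_21e463_al.Rationality

/-- Rationality of the multigraded Hilbert series of `L_k / L_{k+1}` for free superalgebras. Here
`G d` is the component of multidegree `d` and `F` is the power series whose coefficient at `d` is
`dim (L_k)_d - dim (L_{k+1})_d`; the product is the product of power series. -/
theorem result (m n : ℕ) (L : ℕ → Submodule ℂ (FreeAlgebra ℂ (Fin m ⊕ Fin n)))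
    (G : ((Fin m ⊕ Fin n) →₀ ℕ) → Submodule ℂ (FreeAlgebra ℂ (Fin m ⊕ Fin n)))
    (hG : ∀ d : (Fin m ⊕ Fin n) →₀ ℕ, G d = Submodule.span ℂ
        ((fun w : FreeMonoid (Fin m ⊕ Fin n) =>
            FreeMonoid.lift (fun x => FreeAlgebra.ι ℂ x) w) ''
          {w : FreeMonoid (Fin m ⊕ Fin n) |
            Multiset.toFinsupp (↑(FreeMonoid.toList w) : Multiset (Fin m ⊕ Fin n)) = d}))
    (h1 : L 1 = ⊤)
    (hs : ∀ k : ℕ, 1 ≤ k → L (k + 1) = Submodule.span ℂ
        {x : FreeAlgebra ℂ (Fin m ⊕ Fin n) |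
          ∃ (w : FreeMonoid (Fin m ⊕ Fin n)) (d : (Fin m ⊕ Fin n) →₀ ℕ)
            (b : FreeAlgebra ℂ (Fin m ⊕ Fin n)),
            b ∈ L k ⊓ G d ∧
            x = FreeMonoid.lift (fun x => FreeAlgebra.ι ℂ x) w * b -
              ((-1 : ℂ) ^ ((∑ j : Fin n,
                  (Multiset.toFinsupp (↑(FreeMonoid.toList w) : Multiset (Fin m ⊕ Fin n)))
                    (Sum.inr j)) * ∑ j : Fin n, d (Sum.inr j))) •
                (b * FreeMonoid.lift (fun x => FreeAlgebra.ι ℂ x) w)})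
    (k : ℕ) (hk : 3 ≤ k) (F : MvPowerSeries (Fin m ⊕ Fin n) ℤ)
    (hF : ∀ d : (Fin m ⊕ Fin n) →₀ ℕ, MvPowerSeries.coeff d F =
      (Module.finrank ℂ (L k ⊓ G d : Submodule ℂ (FreeAlgebra ℂ (Fin m ⊕ Fin n))) : ℤ) -
      (Module.finrank ℂ (L (k + 1) ⊓ G d : Submodule ℂ (FreeAlgebra ℂ (Fin m ⊕ Fin n))) : ℤ)) :
    ∃ p : MvPolynomial (Fin m ⊕ Fin n) ℤ, F * ∏ s, (1 - MvPowerSeries.X s) =
      (p : MvPowerSeries (Fin m ⊕ Fin n) ℤ) :=
  Pool.Agent.SuperLCS.main m n L G hG h1 hs k hk F hF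

end Pool.Agent.Results.MP_21e463_al.Rationality
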